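import Pool.Agent.Lib.MP_29ad01_pr.Main

set_option autoImplicit false
open MeasureTheory ProbabilityTheory Pool.Agent.Lib.MP_29ad01_pr
open scoped NNReal

/-- Dynamical Brownian LPP: `B i t x` is the value at location `x` of line `i` at dynamical time `t`.
The normalised change of the passage time has a Gaussian tail, uniformly in `n ≥ 1` and `t > 0`. -/
theorem Pool.Agent.Results.MP_29ad01_pr.GaussianTail.result
    {Ω : Type*} [MeasurableSpace Ω] (P : Measure Ω) (B : ℕ → ℝ≥0 → ℝ≥0 → Ω → ℝ)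
    (hG : IsGaussianProcess (fun p : ℕ × ℝ≥0 × ℝ≥0 => B p.1 p.2.1 p.2.2) P)
    (hmean : ∀ i t x, ∫ ω, B i t x ω ∂P = 0)
    (hcov : ∀ i j s t x y, ∫ ω, B i s x ω * B j t y ω ∂P =
      if i = j then Real.exp (-|(s : ℝ) - t|) * min (x : ℝ) y else 0)
    (hcont : ∀ i t, ∀ᵐ ω ∂P, Continuous fun x => B i t x ω)
    (n : ℕ) (hn : 1 ≤ n) (t : ℝ≥0) (ht : 0 < t) (α : ℝ) (hα : 0 < α) :
    P.real {ω | α * √(n * t) ≤ |lpp n (fun i x => B i t x ω) - lpp n (fun i x => B i 0 x ω)|}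
      ≤ 2 * Real.exp (-α ^ 2 / 4) :=
  tail_bound hG hmean hcov hcont n hn t ht α hα
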